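import Mathlib

/-!
# Hall's finiteness conjecture: designs with a polarity

Let `D` be a symmetric `2-(v,k,lam)` design with a polarity, and let `a` be the number of its
absolute points. Either `a = 0`, and then `k - lam` is a square `m ^ 2` with `m ∣ lam` (so
`k ≤ lam ^ 2 + lam`), or `k ≤ lam * a`. Hence for fixed `lam` and `C` only finitely many
symmetric designs have a polarity with at most `C` absolute points.
-/

set_option autoImplicit false

namespace Pool.Agent.Results.MP_c38931_co.AbsolutePoints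

open Finset

/-- A symmetric `2-(v,k,lam)` design: `v` blocks `B 0, ..., B (v-1)` on `v` points, all of size
`k`, `2 ≤ k < v`, and any two points lie in exactly `lam` blocks. -/
structure IsSymmetricDesign (v k lam : ℕ) (B : Fin v → Finset (Fin v)) : Prop where
  two_le : 2 ≤ k
  lt : k < v
  size : ∀ i, (B i).card = k
  pair : ∀ x y : Fin v, x ≠ y →
    (Finset.univ.filter (fun i => x ∈ B i ∧ y ∈ B i)).card = lam

/-- A polarity: a bijection `π` from the points to the (indices of the) blocks such that
`x ∈ B (π y)` iff `y ∈ B (π x)`. -/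
def IsPolarity {v : ℕ} (B : Fin v → Finset (Fin v)) (π : Equiv.Perm (Fin v)) : Prop :=
  ∀ x y : Fin v, x ∈ B (π y) ↔ y ∈ B (π x)

/-- The absolute points of `π`: the points lying on their own polar block. -/
def absolutePoints {v : ℕ} (B : Fin v → Finset (Fin v)) (π : Equiv.Perm (Fin v)) :
    Finset (Fin v) :=
  Finset.univ.filter (fun x => x ∈ B (π x))

/-- double counting of a symmetric relation on a finset -/
theorem parity {v : ℕ} (R : Fin v → Fin v → Prop) [DecidableRel R]
    (hR : ∀ x y, R x y ↔ R y x) (S : Finset (Fin v)) :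
    (∑ x ∈ S, (S.filter (fun z => R x z)).card) % 2 = (S.filter (fun x => R x x)).card % 2 := by
  have h1 : (∑ x ∈ S, (S.filter (fun z => R x z)).card) =
      (S.filter (fun x => R x x)).card + 2 * ∑ x ∈ S, (S.filter (fun z => x < z ∧ R x z)).card := by
    have hs : ∀ x ∈ S, (S.filter (fun z => R x z)).card =
        (if R x x then 1 else 0) + (S.filter (fun z => x < z ∧ R x z)).card +
          (S.filter (fun z => z < x ∧ R x z)).card := by
      intro x hx
      have e : S.filter (fun z => R x z) = ((S.filter (fun z => z = x ∧ R x z)) ∪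
          (S.filter (fun z => x < z ∧ R x z))) ∪ (S.filter (fun z => z < x ∧ R x z)) := by
        ext z
        simp only [mem_filter, mem_union]
        rcases lt_trichotomy z x with h | h | h
        · simp [h, h.ne, h.not_gt]
        · simp [h]
        · simp [h, h.ne', h.not_gt]
      rw [e, card_union_of_disjoint, card_union_of_disjoint]
      · congr 2
        by_cases hxx : R x x
        · rw [if_pos hxx]
          have : S.filter (fun z => z = x ∧ R x z) = {x} := by
            ext z
            simp only [mem_filter, mem_singleton]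
            constructor
            · rintro ⟨_, h, _⟩
              exact h
            · rintro rfl
              exact ⟨hx, rfl, hxx⟩
          rw [this, card_singleton]
        · rw [if_neg hxx]
          rw [card_eq_zero, filter_eq_empty_iff]
          rintro z _ ⟨rfl, h⟩
          exact hxx h
      · rw [disjoint_left]
        intro z hz hz'
        simp only [mem_filter] at hz hz'
        exact absurd hz'.2.1 (by rw [hz.2.1]; exact lt_irrefl _)
      · rw [disjoint_left]
        intro z hz hz'
        simp only [mem_filter, mem_union] at hz hz'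
        rcases hz with hz | hz
        · exact absurd hz'.2.1 (by rw [hz.2.1]; exact lt_irrefl _)
        · exact absurd hz'.2.1 hz.2.1.not_gt
    rw [sum_congr rfl hs, sum_add_distrib, sum_add_distrib]
    have h2 : ∑ x ∈ S, (S.filter (fun z => z < x ∧ R x z)).card =
        ∑ x ∈ S, (S.filter (fun z => x < z ∧ R x z)).card := by
      have e1 : ∀ (Q : Fin v → Fin v → Prop) [DecidableRel Q],
          ∑ x ∈ S, (S.filter (fun z => Q x z)).card =
            ∑ x ∈ S, ∑ z ∈ S, if Q x z then 1 else 0 := by
        intro Q _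
        refine sum_congr rfl fun x _ => ?_
        rw [card_filter]
      rw [e1 (fun x z => z < x ∧ R x z), e1 (fun x z => x < z ∧ R x z), sum_comm]
      refine sum_congr rfl fun x _ => sum_congr rfl fun z _ => ?_
      simp only [hR z x]
    rw [h2, card_filter]
    ring
  omega

section

variable {v k lam : ℕ} {N : Fin v → Finset (Fin v)}

/-- row sums inside a block -/
theorem block_sum (hk : ∀ x, (N x).card = k)
    (hp : ∀ x y, x ≠ y → (N x ∩ N y).card = lam) (hs : ∀ x y, x ∈ N y ↔ y ∈ N x) (y : Fin v) :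
    (∑ x ∈ N y, ((N y).filter (fun z => x ∈ N z)).card) =
      if y ∈ N y then (k - 1) * lam + k else k * lam := by
  have h0 : ∀ x, (N y).filter (fun z => x ∈ N z) = N y ∩ N x := by
    intro x
    ext z
    simp only [mem_filter, mem_inter, hs x z]
  simp only [h0]
  split_ifs with hy
  · rw [← add_sum_erase _ _ hy, inter_self, hk]
    have : ∀ x ∈ (N y).erase y, (N y ∩ N x).card = lam := by
      intro x hx
      exact hp y x (ne_of_mem_erase hx).symm
    rw [sum_congr rfl this, sum_const, card_erase_of_mem hy, hk, smul_eq_mul]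
    ring
  · have : ∀ x ∈ N y, (N y ∩ N x).card = lam := by
      intro x hx
      refine hp y x ?_
      rintro rfl
      exact hy hx
    rw [sum_congr rfl this, sum_const, hk, smul_eq_mul]

theorem block_parity (hk : ∀ x, (N x).card = k)
    (hp : ∀ x y, x ≠ y → (N x ∩ N y).card = lam) (hs : ∀ x y, x ∈ N y ↔ y ∈ N x) (y : Fin v) :
    ((N y).filter (fun x => x ∈ N x)).card % 2 =
      (if y ∈ N y then (k - 1) * lam + k else k * lam) % 2 := by
  rw [← block_sum hk hp hs y]
  exact (parity (fun x z => x ∈ N z) (fun x z => hs x z) (N y)).symm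

/-- `lam * (v - 1) = k * (k - 1)` -/
theorem count (hk : ∀ x, (N x).card = k)
    (hp : ∀ x y, x ≠ y → (N x ∩ N y).card = lam) (hs : ∀ x y, x ∈ N y ↔ y ∈ N x)
    (hv : 0 < v) : lam * (v - 1) + k = k * k := by
  let x : Fin v := ⟨0, hv⟩
  have h1 : ∑ y : Fin v, (N x ∩ N y).card = lam * (v - 1) + k := by
    rw [← add_sum_erase _ _ (mem_univ x), inter_self, hk]
    have : ∀ y ∈ (univ : Finset (Fin v)).erase x, (N x ∩ N y).card = lam := by
      intro y hy
      exact hp x y (ne_of_mem_erase hy).symm
    rw [sum_congr rfl this, sum_const, card_erase_of_mem (mem_univ x), card_univ, Fintype.card_fin,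
      smul_eq_mul]
    ring
  rw [← h1]
  have h2 : ∀ y : Fin v, (N x ∩ N y).card = ∑ z ∈ N x, if z ∈ N y then 1 else 0 := by
    intro y
    rw [← card_filter, filter_mem_eq_inter]
  rw [sum_congr rfl (fun y _ => h2 y), sum_comm]
  have h3 : ∀ z ∈ N x, (∑ y : Fin v, if z ∈ N y then 1 else 0) = k := by
    intro z _
    rw [← card_filter]
    have : (univ.filter (fun y => z ∈ N y)) = N z := by
      ext y
      simp [hs z y]
    rw [this, hk]
  rw [sum_congr rfl h3, sum_const, hk, smul_eq_mul]

/-- case `k`, `lam` both odd -/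
theorem odd_case (hk : ∀ x, (N x).card = k)
    (hp : ∀ x y, x ≠ y → (N x ∩ N y).card = lam) (hs : ∀ x y, x ∈ N y ↔ y ∈ N x)
    (hv : 0 < v) (hlam : 0 < lam) (hodd : ¬ Even (k * lam)) :
    k ≤ lam * (univ.filter (fun x => x ∈ N x)).card := by
  have hko : Odd k := by
    rw [Nat.not_even_iff_odd] at hodd
    exact (Nat.odd_mul.1 hodd).1
  have hlo : Odd lam := by
    rw [Nat.not_even_iff_odd] at hodd
    exact (Nat.odd_mul.1 hodd).2
  have h1 : ∀ y, 1 ≤ ((N y).filter (fun x => x ∈ N x)).card := by
    intro y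
    have := block_parity hk hp hs y
    by_contra h
    have h0 : ((N y).filter (fun x => x ∈ N x)).card = 0 := by omega
    by_cases hy : y ∈ N y
    · rw [card_eq_zero, filter_eq_empty_iff] at h0
      exact h0 hy hy
    · rw [if_neg hy, h0] at this
      exact hodd (Nat.even_iff.2 this.symm)
  have h2 : v ≤ ∑ y : Fin v, ((N y).filter (fun x => x ∈ N x)).card := by
    calc v = ∑ y : Fin v, 1 := by simp
      _ ≤ _ := sum_le_sum fun y _ => h1 y
  have h3 : ∑ y : Fin v, ((N y).filter (fun x => x ∈ N x)).card =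
      (univ.filter (fun x => x ∈ N x)).card * k := by
    have e1 : ∀ y : Fin v, ((N y).filter (fun x => x ∈ N x)).card =
        ∑ x ∈ univ.filter (fun x => x ∈ N x), if x ∈ N y then 1 else 0 := by
      intro y
      rw [← card_filter, filter_filter]
      congr 1
      ext x
      simp only [mem_filter, mem_univ, true_and]
      tauto
    rw [sum_congr rfl (fun y _ => e1 y), sum_comm]
    have e2 : ∀ x ∈ univ.filter (fun x => x ∈ N x), (∑ y : Fin v, if x ∈ N y then 1 else 0) = k := by
      intro x _
      rw [← card_filter]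
      have : (univ.filter (fun y => x ∈ N y)) = N x := by
        ext y
        simp [hs x y]
      rw [this, hk]
    rw [sum_congr rfl e2, sum_const, smul_eq_mul]
  rw [h3] at h2
  set a := (univ.filter (fun x => x ∈ N x)).card with ha
  have h4 := count hk hp hs hv
  by_contra hlt
  push Not at hlt
  have h5 : lam * a * k ≤ (k - 1) * k := Nat.mul_le_mul_right k (by omega)
  have h6 : lam * v ≤ lam * (a * k) := Nat.mul_le_mul_left lam h2
  have h7 : lam * (v - 1) + lam = lam * v := by
    rw [← Nat.mul_succ]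
    congr 1
    omega
  have hk0 : 0 < k := by
    rcases hko with ⟨m, hm⟩
    omega
  have h8 : (k - 1) * k + k = k * k := by
    obtain ⟨m, rfl⟩ : ∃ m, k = m + 1 := ⟨k - 1, by omega⟩
    simp
    ring
  have h9 : lam * (a * k) = lam * a * k := by ring
  omega

/-- case `k * lam` even -/
theorem even_case (hk : ∀ x, (N x).card = k)
    (hp : ∀ x y, x ≠ y → (N x ∩ N y).card = lam) (hs : ∀ x y, x ∈ N y ↔ y ∈ N x)
    (heven : Even (k * lam)) (hne : (univ.filter (fun x => x ∈ N x)).Nonempty) :
    k + lam ≤ lam * (univ.filter (fun x => x ∈ N x)).card + 1 := by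
  obtain ⟨x, hx⟩ := hne
  have hxx : x ∈ N x := (mem_filter.1 hx).2
  set A := univ.filter (fun x => x ∈ N x) with hA
  have h1 : ∀ y ∈ (N x).erase x, 1 ≤ ((A.erase x).filter (fun z => z ∈ N y)).card := by
    intro y hy
    have hyx : y ≠ x := ne_of_mem_erase hy
    have hyN : y ∈ N x := mem_of_mem_erase hy
    rw [Nat.one_le_iff_ne_zero, ← Nat.pos_iff_ne_zero, card_pos]
    by_cases hyy : y ∈ N y
    · exact ⟨y, mem_filter.2 ⟨mem_erase.2 ⟨hyx, mem_filter.2 ⟨mem_univ _, hyy⟩⟩, hyy⟩⟩
    · have hpar := block_parity hk hp hs y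
      rw [if_neg hyy, Nat.even_iff.1 heven] at hpar
      have hmem : x ∈ (N y).filter (fun x => x ∈ N x) :=
        mem_filter.2 ⟨(hs x y).2 hyN, hxx⟩
      have hpos : 0 < ((N y).filter (fun x => x ∈ N x)).card := card_pos.2 ⟨x, hmem⟩
      have h2 : 1 < ((N y).filter (fun x => x ∈ N x)).card := by omega
      obtain ⟨z, hz, hzx⟩ := exists_mem_ne h2 x
      obtain ⟨hz1, hz2⟩ := mem_filter.1 hz
      exact ⟨z, mem_filter.2 ⟨mem_erase.2 ⟨hzx, mem_filter.2 ⟨mem_univ _, hz2⟩⟩, hz1⟩⟩
  have h2 : k - 1 ≤ ∑ y ∈ (N x).erase x, ((A.erase x).filter (fun z => z ∈ N y)).card := by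
    calc k - 1 = ∑ y ∈ (N x).erase x, 1 := by
          rw [sum_const, card_erase_of_mem hxx, hk]
          simp
      _ ≤ _ := sum_le_sum h1
  have h3 : ∑ y ∈ (N x).erase x, ((A.erase x).filter (fun z => z ∈ N y)).card ≤
      ∑ z ∈ A.erase x, lam := by
    have e1 : ∀ y ∈ (N x).erase x, ((A.erase x).filter (fun z => z ∈ N y)).card =
        ∑ z ∈ A.erase x, if z ∈ N y then 1 else 0 := fun y _ => card_filter _ _
    rw [sum_congr rfl e1, sum_comm]
    refine sum_le_sum fun z hz => ?_
    rw [← card_filter]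
    have hzx : x ≠ z := (ne_of_mem_erase hz).symm
    rw [← hp x z hzx]
    refine card_le_card ?_
    intro y hy
    simp only [mem_filter, mem_erase] at hy
    exact mem_inter.2 ⟨hy.1.2, (hs y z).2 hy.2⟩
  rw [sum_const, card_erase_of_mem hx, smul_eq_mul] at h3
  have hApos : 0 < A.card := card_pos.2 ⟨x, hx⟩
  obtain ⟨m, hm⟩ : ∃ m, A.card = m + 1 := ⟨A.card - 1, by omega⟩
  rw [hm] at h3 ⊢
  simp only [Nat.add_sub_cancel] at h3
  have : lam * (m + 1) = m * lam + lam := by ring
  omega

/-- no absolute point -/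
theorem trace_case (hk : ∀ x, (N x).card = k)
    (hp : ∀ x y, x ≠ y → (N x ∩ N y).card = lam) (hs : ∀ x y, x ∈ N y ↔ y ∈ N x)
    (hv : 0 < v) (hlk : lam < k) (hz : ∀ x, x ∉ N x) :
    ∃ m : ℕ, m * m + lam = k ∧ m ∣ lam := by
  classical
  have hc := count hk hp hs hv
  obtain ⟨n, hn⟩ : ∃ n, k = n + lam := ⟨k - lam, by omega⟩
  have hn0 : 0 < n := by omega
  set s : ℝ := Real.sqrt n with hsdef
  have hs2 : s * s = n := Real.mul_self_sqrt (Nat.cast_nonneg n)
  have hs0 : 0 < s := Real.sqrt_pos.2 (by exact_mod_cast hn0)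
  have hvR : (0 : ℝ) < v := by exact_mod_cast hv
  set J : Matrix (Fin v) (Fin v) ℝ := Matrix.of fun _ _ => 1 with hJ
  set M : Matrix (Fin v) (Fin v) ℝ := Matrix.of fun x y => if x ∈ N y then 1 else 0 with hM
  have hMM : M * M = (n : ℝ) • (1 : Matrix (Fin v) (Fin v) ℝ) + (lam : ℝ) • J := by
    ext x y
    simp only [Matrix.mul_apply, hM, hJ, Matrix.of_apply, Matrix.add_apply, Matrix.smul_apply,
      smul_eq_mul, mul_one]
    have e1 : ∀ z, ((if x ∈ N z then (1 : ℝ) else 0) * if z ∈ N y then 1 else 0) =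
        if z ∈ N x ∩ N y then 1 else 0 := by
      intro z
      simp only [mem_inter, hs x z]
      by_cases h1 : z ∈ N x <;> by_cases h2 : z ∈ N y <;> simp [h1, h2]
    rw [sum_congr rfl (fun z _ => e1 z), ← Finset.sum_filter, sum_const, nsmul_eq_mul, mul_one]
    have e2 : univ.filter (fun z => z ∈ N x ∩ N y) = N x ∩ N y := by
      ext z
      simp
    rw [e2]
    by_cases hxy : x = y
    · subst hxy
      rw [inter_self, hk, Matrix.one_apply_eq, hn]
      push_cast
      ring
    · rw [hp x y hxy, Matrix.one_apply_ne hxy]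
      ring
  have hMJ : M * J = (k : ℝ) • J := by
    ext x y
    simp only [Matrix.mul_apply, hM, hJ, Matrix.of_apply, Matrix.smul_apply, smul_eq_mul, mul_one]
    rw [← Finset.sum_filter, sum_const, nsmul_eq_mul, mul_one]
    have e2 : univ.filter (fun z => x ∈ N z) = N x := by
      ext z
      simp [hs x z]
    rw [e2, hk]
  have hJM : J * M = (k : ℝ) • J := by
    ext x y
    simp only [Matrix.mul_apply, hM, hJ, Matrix.of_apply, Matrix.smul_apply, smul_eq_mul, mul_one,
      one_mul]
    rw [← Finset.sum_filter, sum_const, nsmul_eq_mul, mul_one]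
    have e2 : univ.filter (fun z => z ∈ N y) = N y := by
      ext z
      simp
    rw [e2, hk]
  have hJJ : J * J = (v : ℝ) • J := by
    ext x y
    simp [Matrix.mul_apply, hJ]
  set c : ℝ := (k - s) / v with hcdef
  have hcv : c * v = k - s := by
    rw [hcdef]
    field_simp
  have hq : (lam : ℝ) - 2 * c * k + c * c * v = 0 := by
    have h1 : (lam : ℝ) * v = k * k - k + lam := by
      have h2 : ((lam * (v - 1) + k : ℕ) : ℝ) = ((k * k : ℕ) : ℝ) := by rw [hc]
      push_cast [Nat.cast_sub (show 1 ≤ v from hv)] at h2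
      linarith
    have h3 : ((lam : ℝ) - 2 * c * k + c * c * v) * v = 0 := by
      have : ((lam : ℝ) - 2 * c * k + c * c * v) * v = lam * v - 2 * (c * v) * k + (c * v) * (c * v) := by
        ring
      rw [this, hcv, h1]
      have hkn : (k : ℝ) = n + lam := by exact_mod_cast hn
      have : (k : ℝ) * k - k + lam - 2 * (k - s) * k + (k - s) * (k - s) = s * s - k + lam := by ring
      rw [this, hs2, hkn]
      ring
    rcases mul_eq_zero.1 h3 with h | h
    · exact h
    · exact absurd h hvR.ne'
  set K : Matrix (Fin v) (Fin v) ℝ := M - c • J with hK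
  have hKK : K * K = (s * s) • (1 : Matrix (Fin v) (Fin v) ℝ) := by
    have : K * K = M * M - c • (M * J) - c • (J * M) + (c * c) • (J * J) := by
      rw [hK]
      simp only [sub_mul, mul_sub, Matrix.smul_mul, Matrix.mul_smul, smul_smul]
      abel
    rw [this, hMM, hMJ, hJM, hJJ, hs2]
    simp only [smul_smul]
    have h2 : ((lam : ℝ) - 2 * c * k + c * c * v) • J = 0 := by rw [hq, zero_smul]
    have h3 : (n : ℝ) • (1 : Matrix (Fin v) (Fin v) ℝ) + (lam : ℝ) • J - (c * k) • J - (c * k) • J +
        (c * c * v) • J = (n : ℝ) • (1 : Matrix (Fin v) (Fin v) ℝ) +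
          ((lam : ℝ) - 2 * c * k + c * c * v) • J := by
      module
    rw [h3, h2, add_zero]
  set P : Matrix (Fin v) (Fin v) ℝ := (1 / 2 : ℝ) • (1 + s⁻¹ • K) with hP
  have hPP : P * P = P := by
    have h1 : P * P = (1 / 4 : ℝ) • (1 + (2 * s⁻¹) • K + (s⁻¹ * s⁻¹) • (K * K)) := by
      rw [hP]
      simp only [Matrix.smul_mul, Matrix.mul_smul, add_mul, mul_add, one_mul, mul_one, smul_smul,
        smul_add]
      module
    rw [h1, hKK, smul_smul, hP]
    have h2 : s⁻¹ * s⁻¹ * (s * s) = 1 := by field_simp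
    rw [h2, one_smul]
    module
  have htr : ∃ r : ℕ, P.trace = r := by
    have hI : IsIdempotentElem (Matrix.toLin' P) := by
      unfold IsIdempotentElem
      rw [Module.End.mul_eq_comp, ← Matrix.toLin'_mul, hPP]
    refine ⟨Module.finrank ℝ (LinearMap.range (Matrix.toLin' P)), ?_⟩
    rw [← Matrix.trace_toLin'_eq]
    exact (LinearMap.IsIdempotentElem.isProj_range _ hI).trace
  obtain ⟨r, hr⟩ := htr
  have hMtr : M.trace = 0 := by
    simp [Matrix.trace, hM, hz]
  have hJtr : J.trace = v := by
    simp [Matrix.trace, hJ]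
  have hPtr : P.trace = (1 / 2) * (v + s⁻¹ * (0 - c * v)) := by
    rw [hP, hK, Matrix.trace_smul, Matrix.trace_add, Matrix.trace_smul, Matrix.trace_sub,
      Matrix.trace_smul, hMtr, hJtr, Matrix.trace_one, Fintype.card_fin]
    simp [smul_eq_mul]
  rw [hr, hcv] at hPtr
  have hks : (k : ℝ) = s * ((v : ℝ) + 1 - 2 * r) := by
    have h1 : s * s⁻¹ = 1 := mul_inv_cancel₀ hs0.ne'
    have h2 : 2 * (r : ℝ) * s = v * s + (s * s⁻¹) * (0 - (k - s)) := by
      rw [hPtr]
      ring
    rw [h1] at h2
    linarith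
  set t : ℤ := (v : ℤ) + 1 - 2 * r with ht
  have hkt : (k : ℝ) = s * (t : ℝ) := by
    rw [hks, ht]
    push_cast
    ring
  have hk2 : ((k : ℤ)) ^ 2 = (n : ℤ) * t ^ 2 := by
    have : (k : ℝ) ^ 2 = n * (t : ℝ) ^ 2 := by
      rw [hkt, ← hs2]
      ring
    exact_mod_cast this
  have hk0 : 0 < k := by omega
  have hdvd : t ∣ (k : ℤ) := by
    rw [← Int.pow_dvd_pow_iff (two_ne_zero)]
    exact ⟨n, by rw [hk2]; ring⟩
  obtain ⟨m, hm⟩ := hdvd
  have ht0 : t ≠ 0 := by
    intro h
    rw [h, zero_mul] at hm
    omega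
  have hnm : (n : ℤ) = m ^ 2 := by
    have h1 : t ^ 2 * (n : ℤ) = t ^ 2 * m ^ 2 := by
      have : (t * m) ^ 2 = (n : ℤ) * t ^ 2 := by rw [← hm, hk2]
      linarith [this, mul_pow t m 2, mul_comm (t ^ 2) (n : ℤ)]
    exact mul_left_cancel₀ (pow_ne_zero 2 ht0) h1
  refine ⟨m.natAbs, ?_, ?_⟩
  · have : m.natAbs * m.natAbs = n := by
      have h2 : ((m.natAbs * m.natAbs : ℕ) : ℤ) = (n : ℤ) := by
        rw [hnm]
        push_cast
        rw [← sq, sq_abs]
      exact_mod_cast h2
    omega
  · have h1 : m ∣ (k : ℤ) := ⟨t, by rw [hm]; ring⟩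
    have h2 : m ∣ (n : ℤ) := ⟨m, by rw [hnm]; ring⟩
    have h3 : m ∣ (lam : ℤ) := by
      have : (lam : ℤ) = k - n := by
        rw [hn]
        push_cast
        ring
      rw [this]
      exact dvd_sub h1 h2
    exact Int.natAbs_dvd_natAbs.2 h3 |>.trans (by simp)

end

/-- Let `π` be a polarity of a symmetric `2-(v,k,lam)` design and `A` its set of absolute points.
(1) If `A` is empty, then `k - lam = m ^ 2` with `m ∣ lam`.
(2) If `A` is not empty, then `k ≤ lam * |A|`.
(3) If `A` is not empty and `k * lam` is even, then `k - 1 ≤ lam * (|A| - 1)`.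
(4) Hence, if `|A| ≤ C`, then `k ≤ max (lam ^ 2 + lam) (lam * C)`, and `v` is at most the square
of this number: for fixed `lam ≥ 1` and `C` there are only finitely many symmetric designs having
a polarity with at most `C` absolute points. -/
theorem result :
    (∀ (v k lam : ℕ) (B : Fin v → Finset (Fin v)) (π : Equiv.Perm (Fin v)), 1 ≤ lam →
      IsSymmetricDesign v k lam B → IsPolarity B π →
      (absolutePoints B π = ∅ → ∃ m : ℕ, m ^ 2 + lam = k ∧ m ∣ lam) ∧
      (absolutePoints B π ≠ ∅ → k ≤ lam * (absolutePoints B π).card) ∧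
      (absolutePoints B π ≠ ∅ → Even (k * lam) →
        k - 1 ≤ lam * ((absolutePoints B π).card - 1))) ∧
    (∀ lam C : ℕ, 1 ≤ lam →
      ∀ (v k : ℕ) (B : Fin v → Finset (Fin v)) (π : Equiv.Perm (Fin v)),
      IsSymmetricDesign v k lam B → IsPolarity B π → (absolutePoints B π).card ≤ C →
      k ≤ max (lam ^ 2 + lam) (lam * C) ∧ v ≤ (max (lam ^ 2 + lam) (lam * C)) ^ 2) := by
  have main : ∀ (v k lam : ℕ) (B : Fin v → Finset (Fin v)) (π : Equiv.Perm (Fin v)), 1 ≤ lam →
      IsSymmetricDesign v k lam B → IsPolarity B π →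
      lam * (v - 1) + k = k * k ∧
      (absolutePoints B π = ∅ → ∃ m : ℕ, m ^ 2 + lam = k ∧ m ∣ lam) ∧
      (absolutePoints B π ≠ ∅ → k ≤ lam * (absolutePoints B π).card) ∧
      (absolutePoints B π ≠ ∅ → Even (k * lam) →
        k - 1 ≤ lam * ((absolutePoints B π).card - 1)) := by
    intro v k lam B π hlam hD hπ
    have hk : ∀ x, (B (π x)).card = k := fun x => hD.size _
    have hs : ∀ x y, x ∈ B (π y) ↔ y ∈ B (π x) := hπ
    have hp : ∀ x y, x ≠ y → (B (π x) ∩ B (π y)).card = lam := by
      intro x y hxy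
      rw [← hD.pair x y hxy]
      refine card_bij (fun z _ => π z) ?_ ?_ ?_
      · intro z hz
        rw [mem_inter] at hz
        rw [mem_filter]
        exact ⟨mem_univ _, (hs x z).2 hz.1, (hs y z).2 hz.2⟩
      · intro z _ z' _ h
        exact π.injective h
      · intro i hi
        rw [mem_filter] at hi
        refine ⟨π.symm i, ?_, by simp⟩
        rw [mem_inter]
        refine ⟨(hs _ _).2 ?_, (hs _ _).2 ?_⟩
        · simpa using hi.2.1
        · simpa using hi.2.2
    have hv : 0 < v := by
      have := hD.lt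
      omega
    have hc := count hk hp hs hv
    have hlk : lam < k := by
      by_contra h
      push Not at h
      have h1 := hD.lt
      have h2 := hD.two_le
      have h3 : k * (v - 1) ≤ lam * (v - 1) := Nat.mul_le_mul_right _ h
      have h4 : k * k ≤ k * (v - 1) := Nat.mul_le_mul_left k (by omega)
      omega
    refine ⟨hc, ?_, ?_, ?_⟩
    · intro h0
      have hz : ∀ x, x ∉ B (π x) := by
        intro x hx
        have : x ∈ absolutePoints B π := mem_filter.2 ⟨mem_univ _, hx⟩
        rw [h0] at this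
        exact absurd this (notMem_empty x)
      obtain ⟨m, h1, h2⟩ := trace_case hk hp hs hv hlk hz
      exact ⟨m, by rw [sq]; exact h1, h2⟩
    · intro hne
      by_cases he : Even (k * lam)
      · have := even_case hk hp hs he (nonempty_iff_ne_empty.2 hne)
        change k + lam ≤ lam * (absolutePoints B π).card + 1 at this
        omega
      · exact odd_case hk hp hs hv hlam he
    · intro hne he
      have := even_case hk hp hs he (nonempty_iff_ne_empty.2 hne)
      change k + lam ≤ lam * (absolutePoints B π).card + 1 at this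
      rw [Nat.mul_sub, mul_one]
      omega
  refine ⟨fun v k lam B π hlam hD hπ => (main v k lam B π hlam hD hπ).2, ?_⟩
  intro lam C hlam v k B π hD hπ hC
  obtain ⟨hc, h0, h1, -⟩ := main v k lam B π hlam hD hπ
  have hk : k ≤ max (lam ^ 2 + lam) (lam * C) := by
    by_cases he : absolutePoints B π = ∅
    · obtain ⟨m, hm, hd⟩ := h0 he
      have h2 : m ≤ lam := Nat.le_of_dvd (by omega) hd
      have h3 : m ^ 2 ≤ lam ^ 2 := Nat.pow_le_pow_left h2 2
      exact le_max_of_le_left (by omega)
    · exact le_max_of_le_right ((h1 he).trans (Nat.mul_le_mul_left lam hC))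
  refine ⟨hk, le_trans ?_ (Nat.pow_le_pow_left hk 2)⟩
  have h2 := hD.two_le
  have h3 : v - 1 ≤ lam * (v - 1) := Nat.le_mul_of_pos_left _ (by omega)
  rw [sq]
  omega

end Pool.Agent.Results.MP_c38931_co.AbsolutePoints
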