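import Pool.Agent.Q138.PS.UF
import Pool.Agent.Results.MP_c38931_co.DensityZero
import Pool.Agent.Results.MP_c38931_co.SolvableTransitive
import Pool.Agent.Results.MP_c38931_co.ReciprocalSum
import Pool.Agent.Results.MP_c38931_co.PointTransitiveGroups

/-!
# The block sizes `⌊α P(n)⌋` of symmetric designs with a given `lam`

Let `q ≥ 2`. Outside a set of real numbers of Hausdorff dimension at most `q / (q + 1 / (q 2 ^ (q - 1)))` (that is
`8 / 9` for `q = 2`) every `α > 0` has the following property, for all `lam` and for ALL integral polynomials `P` of degree `q`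
with positive leading coefficient and coefficients of size at most `N ^ η`: for all but `ε N` of the `n ≤ N` the number
`⌊α P(n)⌋` is not the block size of a symmetric `2-(v, k, lam)` design (`lam` not a square, or `v ≢ 1 (mod 4)`, or with a
suitable point-transitive group), and for at most `N (log N) ^ (ε - 1)`, and `N (log N) ^ (ε - 9 / 8)` if `lam` is not a square, of
the `n ≤ N` it is the block size of such a design with a solvable point-transitive group of automorphisms.
-/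

set_option autoImplicit false

namespace Pool.Agent.Results.MP_c38931_co.BlockSizesAlongRealMultiples

open Finset Filter Topology
open Pool.Agent.Q138.PS
open Pool.Agent.Results.MP_c38931_co.ReciprocalSum (blockSizes)
open Pool.Agent.Results.MP_c38931_co.PointTransitiveGroups (IsPointTransitiveDesign DominantPrimePower
  PrimeOutsideStabilizer CyclicSylow FewPrimes)

open Classical in
/-- the number of the `1 ≤ n ≤ N` for which `⌊α P(n)⌋` has the property `Z` -/
noncomputable def count (Z : ℕ → Prop) (α : ℝ) (P : Polynomial ℤ) (N : ℕ) : ℕ :=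
  ((Icc 1 N).filter fun n : ℕ => Z ⌊α * ((P.eval (n : ℤ) : ℤ) : ℝ)⌋₊).card

/-- for some `η > 0` and all large `N`, for ALL `P ∈ ℤ[X]` of degree `q` with positive leading coefficient and coefficients
of size at most `N ^ η`, at most `f N` of the `n ≤ N` are such that `⌊α P(n)⌋` has the property `Z` -/
def AtMost (q : ℕ) (α : ℝ) (Z : ℕ → Prop) (f : ℕ → ℝ) : Prop :=
  ∃ η : ℝ, 0 < η ∧ ∀ᶠ N : ℕ in atTop, ∀ P : Polynomial ℤ, P.natDegree = q → 0 < P.leadingCoeff →
    (∀ j, |((P.coeff j : ℤ) : ℝ)| ≤ (N : ℝ) ^ η) → (count Z α P N : ℝ) ≤ f N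

/-- `k` is the block size of a symmetric `2-(v, k, lam)` design with `2 ≤ k < v`, where `lam` is not a square or
`v ≢ 1 (mod 4)` -/
def BlockSize (lam k : ℕ) : Prop :=
  ∃ (v : ℕ) (B : Fin v → Finset (Fin v)), 2 ≤ k ∧ k < v ∧ (∀ i, (B i).card = k) ∧
    (∀ x y : Fin v, x ≠ y → (Finset.univ.filter (fun i => x ∈ B i ∧ y ∈ B i)).card = lam) ∧
    (¬ IsSquare lam ∨ v % 4 ≠ 1)

/-- `k` is the block size of a symmetric `2-(v, k, lam)` design with a point-transitive group of automorphisms which has one of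
four properties -/
def TransitiveBlockSize (lam : ℕ) (ε : ℝ) (c k : ℕ) : Prop :=
  ∃ (v : ℕ) (B : Fin v → Finset (Fin v)) (H : Subgroup (Equiv.Perm (Fin v))), IsPointTransitiveDesign v k lam B H ∧
    (DominantPrimePower ε v k H ∨ PrimeOutsideStabilizer ε v k H ∨ CyclicSylow ε v k H ∨ FewPrimes c v H)

theorem count_eq (Z : ℕ → Prop) (α : ℝ) (P : Polynomial ℤ) (N : ℕ) : (count Z α P N : ℝ) = cnP Z α P N := by
  classical
  unfold count cnP cn
  refine congrArg _ (congrArg _ ?_)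
  ext n
  simp only [mem_filter]

theorem trans_mono {lam : ℕ} {ε ε' : ℝ} (h : ε' ≤ ε) {c k : ℕ} (hk : TransitiveBlockSize lam ε c k) :
    TransitiveBlockSize lam ε' c k := by
  obtain ⟨v, B, H, h1, h2⟩ := hk
  have hk1 : (1 : ℝ) ≤ k := by
    have := h1.two_le
    exact_mod_cast (by omega : 1 ≤ k)
  have h3 : (k : ℝ) ^ (1 - ε) ≤ (k : ℝ) ^ (1 - ε') := Real.rpow_le_rpow_of_exponent_le hk1 (by linarith)
  refine ⟨v, B, H, h1, ?_⟩
  rcases h2 with ⟨m, r, a, f, g1, g2, g3, g4, g5⟩ | ⟨p, x, g1, g2, g3⟩ | ⟨p, Q, g1, g2, g3⟩ | h2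
  · exact Or.inl ⟨m, r, a, f, g1, g2, g3, g4.trans h3, g5⟩
  · exact Or.inr (Or.inl ⟨p, x, g1, g2.trans h3, g3⟩)
  · exact Or.inr (Or.inr (Or.inl ⟨p, Q, g1, g2.trans h3, g3⟩))
  · exact Or.inr (Or.inr (Or.inr h2))

/-- **Theorem.** Let `q ≥ 2`. There is a set `E` of Hausdorff dimension at most `q / (q + 1 / (q 2 ^ (q - 1)))` such that for
each `α > 0` outside `E` and all `lam ≥ 1` and `ε > 0`, uniformly in `P`:
(1) for at most `ε N` of the `n ≤ N` the number `⌊α P(n)⌋` is a `BlockSize` for `lam`;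
(2) for `ε < 1` and all `c`, for at most `δ N` of the `n ≤ N` it is a `TransitiveBlockSize` with the parameters `ε`, `c`;
(3) for at most `N (log N) ^ (ε - 1)` of the `n ≤ N` it is the block size of a symmetric `2-(v, k, lam)` design with a solvable
point-transitive group of automorphisms;
(4) if `lam` is not a square, for at most `N (log N) ^ (ε - 9 / 8)` of the `n ≤ N`. -/
theorem result (q : ℕ) (hq : 2 ≤ q) :
    ∃ E : Set ℝ, dimH E ≤ ENNReal.ofReal (q / (q + 1 / ((q : ℝ) * 2 ^ (q - 1)))) ∧ ∀ α : ℝ, 0 < α → α ∉ E →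
      ∀ (lam : ℕ) (ε : ℝ), 1 ≤ lam → 0 < ε →
      AtMost q α (BlockSize lam) (fun N => ε * N) ∧
      (ε < 1 → ∀ (c : ℕ) (δ : ℝ), 0 < δ → AtMost q α (TransitiveBlockSize lam ε c) (fun N => δ * N)) ∧
      AtMost q α (fun k => k ∈ blockSizes lam) (fun N => N * (Real.log N) ^ (ε - 1)) ∧
      (¬ IsSquare lam → AtMost q α (fun k => k ∈ blockSizes lam) (fun N => N * (Real.log N) ^ (ε - 9 / 8))) := by
  classical
  obtain ⟨E1, hE1, h1⟩ := zero_nat (ι := ℕ) q hq (fun j => BlockSize (j + 1)) (fun j =>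
    zero_of_range _ (Pool.Agent.Results.MP_c38931_co.DensityZero.result (j + 1) (by omega)))
  obtain ⟨E2, hE2, h2⟩ := zero_nat (ι := ℕ × ℕ × ℕ) q hq
    (fun j => TransitiveBlockSize (j.1 + 1) (1 / ((j.2.1 : ℝ) + 2)) j.2.2) (fun j =>
    zero_of _ (Pool.Agent.Results.MP_c38931_co.PointTransitiveGroups.result (j.1 + 1) (by omega) (1 / ((j.2.1 : ℝ) + 2))
      (by positivity) (by
        rw [div_lt_one (by positivity)]
        have : (0 : ℝ) ≤ j.2.1 := Nat.cast_nonneg _
        linarith) j.2.2))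
  obtain ⟨E3, hE3, h3⟩ := exc_log (ι := ℕ) q hq (fun lam k => k ∈ blockSizes lam)
  refine ⟨E1 ∪ (E2 ∪ E3), ?_, fun α hα hαE lam ε hlam hε => ?_⟩
  · rw [dimH_union, dimH_union]
    exact max_le hE1 (max_le hE2 hE3)
  simp only [Set.mem_union, not_or] at hαE
  obtain ⟨a1, a2, a3⟩ := hαE
  obtain ⟨l, rfl⟩ : ∃ l, lam = l + 1 := ⟨lam - 1, by omega⟩
  refine ⟨?_, fun hε1 c δ hδ => ?_, ?_, fun hsq => ?_⟩
  · obtain ⟨η, hη, h4⟩ := h1 α hα a1 l
    refine ⟨η, hη, ?_⟩
    filter_upwards [h4 ε hε] with N hN P hdeg hlead hco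
    rw [count_eq]
    exact hN P hdeg hlead hco
  · obtain ⟨j, hj⟩ := exists_nat_gt (1 / ε)
    have hj2 : 1 / ((j : ℝ) + 2) ≤ ε := by
      rw [div_le_iff₀ (by positivity)]
      have h5 : 1 < j * ε := by
        rw [div_lt_iff₀ hε] at hj
        exact hj
      nlinarith
    obtain ⟨η, hη, h4⟩ := h2 α hα a2 (l, j, c)
    refine ⟨η, hη, ?_⟩
    filter_upwards [h4 δ hδ] with N hN P hdeg hlead hco
    rw [count_eq]
    exact (cnP_mono (fun k hk => trans_mono hj2 hk) α P N).trans (hN P hdeg hlead hco)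
  · obtain ⟨η, hη, h4⟩ := h3 α hα a3 (l + 1) 1 one_pos (fun e he => by
      obtain ⟨C, -, h5⟩ := Pool.Agent.Results.MP_c38931_co.SolvableTransitive.result (l + 1) hlam e he
      refine ⟨C, fun Y hY => le_trans ?_ (h5 Y hY)⟩
      rw [cn_ncard]
      refine Nat.cast_le.2 (Set.ncard_le_ncard ?_ ((Set.finite_Iic Y).subset fun n hn => hn.1))
      rintro n ⟨-, g1, v, B, H, g2⟩
      exact ⟨g1, v, B, H, g2.two_le, g2.lt, g2.size, g2.pair, g2.transitive, g2.aut, g2.solvable⟩) ε hε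
    refine ⟨η, hη, ?_⟩
    filter_upwards [h4] with N hN P hdeg hlead hco
    rw [count_eq]
    exact hN P hdeg hlead hco
  · have hl2 : 2 ≤ l + 1 := by
      rcases Nat.lt_or_ge (l + 1) 2 with h | h
      · exact absurd ⟨1, by omega⟩ hsq
      · exact h
    obtain ⟨η, hη, h4⟩ := h3 α hα a3 (l + 1) (9 / 8) (by norm_num) (fun e he => by
      obtain ⟨C, -, h5⟩ := (Pool.Agent.Results.MP_c38931_co.ReciprocalSum.result (l + 1) hl2 hsq).1 e he
      refine ⟨C, fun Y hY => le_trans ?_ (h5 Y hY)⟩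
      rw [cn_ncard]
      refine Nat.cast_le.2 (Set.ncard_le_ncard ?_ ((Set.finite_Iic Y).subset fun n hn => hn.1))
      rintro n ⟨-, g1, g2⟩
      exact ⟨g1, g2⟩) ε hε
    refine ⟨η, hη, ?_⟩
    filter_upwards [h4] with N hN P hdeg hlead hco
    rw [count_eq]
    exact hN P hdeg hlead hco

end Pool.Agent.Results.MP_c38931_co.BlockSizesAlongRealMultiples
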