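import Pool.Agent.Q123.BX.Quasi

/-!
Problem MP_c38931_co (Hall's finiteness conjecture for symmetric designs), for designs whose blocks
are Boolean combinations of boundedly many axis-parallel half-spaces, uniformly in `λ`.
-/

set_option autoImplicit false

open Finset

namespace Pool.Agent.Results.MP_c38931_co.BoxDesigns

/-- `B` lists the `b` blocks of a `2-(v, k, lam)` design on the points `Fin v`. -/
def IsDesign (v k lam : ℕ) {b : ℕ} (B : Fin b → Finset (Fin v)) : Prop :=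
  (∀ i, (B i).card = k) ∧ ∀ x y, x ≠ y → (univ.filter fun i => x ∈ B i ∧ y ∈ B i).card = lam

/-- The points are placed in `ℝ^d` by `pt`; the set `S` of points is a Boolean combination of (at
most) `s` conditions of the form `x_i < a`: whether `x` is in `S` depends only on the set of those
of the `s` conditions which `x` satisfies. -/
def IsSimple {v d : ℕ} (pt : Fin v → Fin d → ℝ) (s : ℕ) (S : Finset (Fin v)) : Prop :=
  ∃ (i : Fin s → Fin d) (a : Fin s → ℝ) (𝓕 : Set (Set (Fin s))),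
    ∀ x, x ∈ S ↔ {t | pt x (i t) < a t} ∈ 𝓕

/-- The design is symmetric (`2 ≤ k ≤ v - 2`), or `λ ≥ 2`, `2k ≤ v` and any two blocks meet in
`0` or `y` points. -/
def SymmetricOrQuasi (v k lam : ℕ) {b : ℕ} (B : Fin b → Finset (Fin v)) : Prop :=
  (b = v ∧ k + 2 ≤ v) ∨
    (2 ≤ lam ∧ 2 * k ≤ v ∧ ∃ y, ∀ i j, i ≠ j → (B i ∩ B j).card = 0 ∨ (B i ∩ B j).card = y)

theorem result :
    -- (1) all 2-designs
    (∀ (v k lam b d s : ℕ) (B : Fin b → Finset (Fin v)) (pt : Fin v → Fin d → ℝ),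
      IsDesign v k lam B → 1 ≤ lam → 2 ≤ k → k < v → (∀ i, IsSimple pt s (B i)) →
        k * (v - k) ≤ (v - 1) * (2 * (s + 1) * (Nat.clog 2 v + 1) ^ 2) ^ (2 * d)) ∧
    -- (2) symmetric and quasi-symmetric designs
    (∀ (v k lam b d s : ℕ) (B : Fin b → Finset (Fin v)) (pt : Fin v → Fin d → ℝ),
      IsDesign v k lam B → 1 ≤ lam → 2 ≤ k → SymmetricOrQuasi v k lam B →
      (∀ i, IsSimple pt s (B i)) →
        v ≤ 4 * (2 * (s + 1) * (Nat.clog 2 v + 1) ^ 2) ^ (4 * d)) ∧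
    -- (3) finiteness, uniformly in `λ`
    (∀ d s : ℕ, ∃ M : ℕ, ∀ (v k lam b : ℕ) (B : Fin b → Finset (Fin v)) (pt : Fin v → Fin d → ℝ),
      IsDesign v k lam B → 1 ≤ lam → 2 ≤ k → SymmetricOrQuasi v k lam B →
      (∀ i, IsSimple pt s (B i)) → v ≤ M) := by
  have h2 : ∀ (v k lam b d s : ℕ) (B : Fin b → Finset (Fin v)) (pt : Fin v → Fin d → ℝ),
      IsDesign v k lam B → 1 ≤ lam → 2 ≤ k → SymmetricOrQuasi v k lam B →
      (∀ i, IsSimple pt s (B i)) →
        v ≤ 4 * (2 * (s + 1) * (Nat.clog 2 v + 1) ^ 2) ^ (4 * d) := by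
    intro v k lam b d s B pt h hl hk hc hS
    rcases hc with ⟨rfl, hkv⟩ | ⟨hl2, hkv, y, hy⟩
    · exact Q123.BX.sym_bound h hl hk hkv pt hS
    · exact Q123.BX.quasi_bound h hl2 hk hkv hy pt hS
  refine ⟨?_, h2, ?_⟩
  · intro v k lam b d s B pt h hl hk hkv hS
    exact Q123.BX.block_bound h hl hk hkv pt hS
  · intro d s
    obtain ⟨M, hM⟩ := Q123.BX.polylog_finite (4 * (2 * (s + 1)) ^ (4 * d)) (2 * (4 * d))
    refine ⟨M, ?_⟩
    intro v k lam b B pt h hl hk hc hS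
    apply hM
    refine (h2 v k lam b d s B pt h hl hk hc hS).trans (le_of_eq ?_)
    rw [mul_pow, ← pow_mul]
    ring

end Pool.Agent.Results.MP_c38931_co.BoxDesigns
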